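import Pool.Agent.H32.N6H.Targets

/-!
# Row AVD: two linear forms which avoid small subspaces
-/

set_option autoImplicit false

open Polynomial Matrix NumberField IsDedekindDomain Pool.Agent.H32.QC Pool.Agent.H34.N6
  Pool.Agent.H32.N6H

namespace Pool.Agent.H11.N6H

/-- the form attached to `a` -/
def gm {F : Type} [Field F] (m : ℕ) (a : F) : Fin m → F := fun j => a ^ (j : ℕ)

/-- the pairing as a linear map -/
def phl {F : Type} [Field F] {m : ℕ} (g : Fin m → F) : (Fin m → F) →ₗ[F] F where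
  toFun x := g ⬝ᵥ x
  map_add' x y := dotProduct_add g x y
  map_smul' c x := by simp

lemma gm_dot {F : Type} [Field F] (m : ℕ) (a : F) (u : Fin m → F) :
    gm m a ⬝ᵥ u = (∑ j : Fin m, C (u j) * X ^ (j : ℕ) : F[X]).eval a := by
  rw [eval_finsetSum]
  simp only [dotProduct, gm, eval_mul, eval_C, eval_pow, eval_X]
  exact Finset.sum_congr rfl fun j _ => mul_comm _ _

lemma poly_ne {F : Type} [Field F] (m : ℕ) (u : Fin m → F) (hu : u ≠ 0) :
    (∑ j : Fin m, C (u j) * X ^ (j : ℕ) : F[X]) ≠ 0 := by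
  intro h
  apply hu
  funext i
  have h1 : (∑ j : Fin m, C (u j) * X ^ (j : ℕ) : F[X]).coeff (i : ℕ) = u i := by
    rw [finsetSum_coeff]
    simp only [coeff_C_mul, coeff_X_pow]
    rw [Finset.sum_eq_single i]
    · simp
    · intro j _ hj
      have : (i : ℕ) ≠ (j : ℕ) := fun hh => hj (Fin.ext hh).symm
      simp [this]
    · intro hi
      exact absurd (Finset.mem_univ i) hi
  rw [h] at h1
  simpa using h1.symm

lemma poly_deg {F : Type} [Field F] (m : ℕ) (u : Fin m → F) :
    (∑ j : Fin m, C (u j) * X ^ (j : ℕ) : F[X]).natDegree ≤ m := by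
  refine natDegree_sum_le_of_forall_le _ _ fun j _ => ?_
  exact (natDegree_C_mul_X_pow_le _ _).trans j.2.le

/-- some form of the family does not vanish at any of the given nonzero vectors -/
lemma exists_form {F T : Type} [Field F] [Fintype T] (m : ℕ) (s : Finset F)
    (hs : Fintype.card T * m < s.card) (u : T → Fin m → F) :
    ∃ a : F, ∀ i, u i ≠ 0 → gm m a ⬝ᵥ u i ≠ 0 := by
  classical
  by_contra hcon
  push Not at hcon
  have hsub : s ⊆ (Finset.univ : Finset T).biUnion
      (fun i => (∑ j : Fin m, C (u i j) * X ^ (j : ℕ) : F[X]).roots.toFinset) := by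
    intro a _
    obtain ⟨i, hi, hi0⟩ := hcon a
    rw [Finset.mem_biUnion]
    refine ⟨i, Finset.mem_univ i, ?_⟩
    rw [Multiset.mem_toFinset, mem_roots (poly_ne m (u i) hi), IsRoot.def, ← gm_dot]
    exact hi0
  have h1 : s.card ≤ Fintype.card T * m := by
    refine (Finset.card_le_card hsub).trans ?_
    refine (Finset.card_biUnion_le_card_mul _ _ m ?_).trans ?_
    · intro i _
      refine (Multiset.toFinset_card_le _).trans ?_
      exact (card_roots' _).trans (poly_deg m (u i))
    · rw [Finset.card_univ]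
  omega

theorem pf_AVD : T_AVD := by
  classical
  intro F T _ _ m W hW hs
  obtain ⟨s, hs⟩ := hs
  have h1 : ∀ i, ∃ u : Fin m → F, u ∈ W i ∧ (W i ≠ ⊥ → u ≠ 0) := by
    intro i
    by_cases h : W i = ⊥
    · exact ⟨0, (W i).zero_mem, fun hh => absurd h hh⟩
    · obtain ⟨u, hu, hu0⟩ := Submodule.exists_mem_ne_zero_of_ne_bot h
      exact ⟨u, hu, fun _ => hu0⟩
  choose u hu hu0 using h1
  obtain ⟨a, ha⟩ := exists_form m s hs u
  have h2 : ∀ i, ∃ w : Fin m → F, ∀ x ∈ W i, gm m a ⬝ᵥ x = 0 → ∃ c : F, x = c • w := by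
    intro i
    set K : Submodule F (Fin m → F) := W i ⊓ LinearMap.ker (phl (gm m a)) with hK
    have h3 : Module.finrank F K ≤ 1 := by
      by_cases h : W i = ⊥
      · have : K = ⊥ := by rw [hK, h]; exact bot_inf_eq _
        rw [this]
        simp
      · have h4 : K < W i := by
          refine lt_of_le_of_ne inf_le_left ?_
          intro hh
          have h5 : u i ∈ K := by rw [hh]; exact hu i
          have h6 : gm m a ⬝ᵥ u i = 0 := (Submodule.mem_inf.1 h5).2
          exact ha i (hu0 i h) h6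
        have h7 := Submodule.finrank_lt_finrank_of_lt h4
        have h8 := hW i
        omega
    obtain ⟨v, hv⟩ := finrank_le_one_iff.1 h3
    refine ⟨v, fun x hx hx0 => ?_⟩
    have h9 : x ∈ K := Submodule.mem_inf.2 ⟨hx, hx0⟩
    obtain ⟨c, hc⟩ := hv ⟨x, h9⟩
    refine ⟨c, ?_⟩
    have := congrArg Subtype.val hc
    simpa using this.symm
  choose w hw using h2
  obtain ⟨b, hb⟩ := exists_form m s hs w
  refine ⟨gm m a, gm m b, fun i x hx hg hh => ?_⟩
  obtain ⟨c, hc⟩ := hw i x hx hg
  by_cases hw0 : w i = 0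
  · rw [hc, hw0, smul_zero]
  · have h10 : c * (gm m b ⬝ᵥ w i) = 0 := by
      rw [← smul_eq_mul, ← dotProduct_smul, ← hc]; exact hh
    rcases mul_eq_zero.1 h10 with h | h
    · rw [hc, h, zero_smul]
    · exact absurd h (hb i hw0)

end Pool.Agent.H11.N6H
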